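import Pool.Agent.H13.DEV.Targets
import Pool.Agent.H34.N6.Main2
import Pool.Agent.H12.QC.SPR

/-! A rational prime which splits completely in the field of a root and of a square root. -/

set_option autoImplicit false

open Polynomial NumberField IsDedekindDomain Pool.Agent.H32.QC Pool.Agent.H34.N6

namespace Pool.Agent.H59.N6E

/-- a root in an algebraic closure comes from an embedding of `E`, with values in `F` -/
theorem exists_emb {k E F : Type} [Field k] [Field E] [Field F] [Algebra k E]
    [Algebra.IsAlgebraic k E] [CharZero E]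
    (hint : ∀ α : E, IsIntegral ℚ α) (j : ℚ →+* F)
    (h : ∀ α : E, ((minpoly ℚ α).map j).Splits)
    (ι : k →+* F) (P : k[X]) (hP : Irreducible P) (r0 : E) (hr0 : aeval r0 P = 0)
    (r : AlgebraicClosure F)
    (hr : eval₂ ((algebraMap F (AlgebraicClosure F)).comp ι) r P = 0) :
    ∃ g : E →+* AlgebraicClosure F,
      g.comp (algebraMap k E) = (algebraMap F (AlgebraicClosure F)).comp ι ∧ g r0 = r ∧
      ∀ α, ∃ f : F, algebraMap F (AlgebraicClosure F) f = g α := by
  let _ : Algebra k (AlgebraicClosure F) := ((algebraMap F (AlgebraicClosure F)).comp ι).toAlgebra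
  have hy : aeval r (minpoly k r0) = 0 := by
    rw [← minpoly.eq_of_irreducible hP hr0, map_mul]
    have : aeval r P = 0 := hr
    rw [this, zero_mul]
  obtain ⟨φ, hφ⟩ := IntermediateField.exists_algHom_of_splits_of_aeval
    (F := k) (E := E) (K := AlgebraicClosure F)
    (fun s => ⟨Algebra.IsIntegral.isIntegral s, IsAlgClosed.splits _⟩) hy
  refine ⟨φ.toRingHom, ?_, hφ, ?_⟩
  · ext x
    exact φ.commutes x
  · intro α
    have hm : ((minpoly ℚ α).map j) ≠ 0 :=
      Polynomial.map_ne_zero (minpoly.ne_zero (hint α))
    have hroot : ((minpoly ℚ α).map j).map (algebraMap F (AlgebraicClosure F)) |>.IsRoot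
        (φ.toRingHom α) := by
      rw [IsRoot, Polynomial.map_map, eval_map]
      have e : (algebraMap F (AlgebraicClosure F)).comp j =
          φ.toRingHom.comp (algebraMap ℚ E) := RingHom.ext_rat _ _
      rw [e, ← Polynomial.hom_eval₂]
      have : eval₂ (algebraMap ℚ E) α (minpoly ℚ α) = 0 := minpoly.aeval ℚ α
      rw [this, map_zero]
    obtain ⟨f, hf⟩ := (h α).mem_range_of_isRoot hm hroot
    exact ⟨f, hf⟩

/-- a rational prime which splits completely in the field of a root and of a square root -/
theorem pf_SPP : Pool.Agent.H34.N6.T_SPP := by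
  intro k _ _ P D hP _ n
  obtain ⟨r, hr⟩ := IsAlgClosed.exists_aeval_eq_zero (AlgebraicClosure k) P
    (degree_pos_of_irreducible hP).ne'
  obtain ⟨s, hs⟩ := IsAlgClosed.exists_pow_nat_eq (aeval r D) (n := 2) (by norm_num)
  let E := IntermediateField.adjoin k ({r, s} : Set (AlgebraicClosure k))
  have hfin : FiniteDimensional k E :=
    IntermediateField.finiteDimensional_adjoin fun x _ => Algebra.IsIntegral.isIntegral x
  have hNF : NumberField E := NumberField.of_module_finite k E
  let r0 : E := ⟨r, IntermediateField.subset_adjoin _ _ (by simp)⟩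
  let s0 : E := ⟨s, IntermediateField.subset_adjoin _ _ (by simp)⟩
  have hr0 : aeval r0 P = 0 := by
    apply (algebraMap E (AlgebraicClosure k)).injective
    rw [← Polynomial.aeval_algebraMap_apply, map_zero]
    exact hr
  have hs0 : s0 ^ 2 = aeval r0 D := by
    apply (algebraMap E (AlgebraicClosure k)).injective
    rw [← Polynomial.aeval_algebraMap_apply, map_pow]
    exact hs
  obtain ⟨p, hp, hn, h⟩ := Pool.Agent.H12.QC.exists_splitPrime E n
  refine ⟨p, hp, hn, ?_⟩
  intro K _ _ _ w hw
  have key := fun x hx => exists_emb (F := w.adicCompletion K)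
    (fun α => Algebra.IsIntegral.isIntegral (R := ℚ) α) _ (h K w hw)
    ((ic w).comp (algebraMap k K)) P hP r0 hr0 x hx
  constructor
  · -- all roots in the algebraic closure lie in the completion
    refine Polynomial.Splits.of_splits_map
      (algebraMap (w.adicCompletion K) (AlgebraicClosure (w.adicCompletion K)))
      (IsAlgClosed.splits _) fun a ha => ?_
    have ha' := isRoot_of_mem_roots ha
    rw [IsRoot, Polynomial.map_map, eval_map] at ha'
    obtain ⟨g, -, hg, hr⟩ := key a ha'
    obtain ⟨f, hf⟩ := hr r0
    exact ⟨f, hf.trans hg⟩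
  · intro e he
    obtain ⟨g, hgk, hg, hr⟩ := key (algebraMap _ _ e) (by
      rw [← Polynomial.hom_eval₂, he, map_zero])
    obtain ⟨f, hf⟩ := hr s0
    refine ⟨f, ?_⟩
    apply (algebraMap (w.adicCompletion K) (AlgebraicClosure (w.adicCompletion K))).injective
    rw [map_mul, hf, ← map_mul, ← pow_two, hs0, Polynomial.hom_eval₂, ← hgk, ← hg]
    exact (Polynomial.hom_eval₂ D (algebraMap k E) g r0).symm

end Pool.Agent.H59.N6E
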