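import Pool.Agent.H13.DEV.Targets
import Pool.Agent.H34.N6.LibC

/-! The trace of an element which is integral above a place. -/

set_option autoImplicit false

open Polynomial NumberField IsDedekindDomain Pool.Agent.H32.QC Pool.Agent.H34.N6
  Pool.Agent.H13.DEV

namespace Pool.Agent.H59.N6E

/-- the trace of an element which is integral above a place -/
theorem pf_TRI : T_TRI := by
  intro k L _ _ _ _ _ v y hy
  -- the ideal of denominators
  let b : Ideal (𝓞 L) :=
    { carrier := {a : 𝓞 L | ∃ n : 𝓞 L, algebraMap (𝓞 L) L a * y = algebraMap (𝓞 L) L n}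
      add_mem' := by
        rintro a c ⟨n, hn⟩ ⟨m, hm⟩
        exact ⟨n + m, by rw [map_add, map_add, add_mul, hn, hm]⟩
      zero_mem' := ⟨0, by rw [map_zero, zero_mul]⟩
      smul_mem' := by
        rintro c a ⟨n, hn⟩
        exact ⟨c * n, by rw [smul_eq_mul, map_mul, map_mul, mul_assoc, hn]⟩ }
  have hb : ¬ b.comap (algebraMap (𝓞 k) (𝓞 L)) ≤ v.asIdeal := by
    intro hle
    have hpr : v.asIdeal.IsPrime := v.isPrime
    obtain ⟨Q, hbQ, hQ, hQv⟩ :=
      Ideal.exists_ideal_over_prime_of_isIntegral (R := 𝓞 k) (S := 𝓞 L) v.asIdeal b hle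
    have hne : Q ≠ ⊥ := by
      rintro rfl
      apply v.ne_bot
      rw [← hQv]
      rw [Ideal.comap_bot_of_injective]
      exact FaithfulSMul.algebraMap_injective (𝓞 k) (𝓞 L)
    let w : FPl L := ⟨Q, hQ, hne⟩
    have hw : w.under (𝓞 k) = v := by
      ext1
      exact hQv
    have h1 := (norm_ic_le_one_iff w y).1 (hy w hw)
    obtain ⟨n, d, hnd⟩ := HeightOneSpectrum.exists_primeCompl_mul_eq_of_integer w y h1
    exact d.2 (hbQ ⟨n, by rw [mul_comm]; exact hnd⟩)
  rw [SetLike.not_le_iff_exists] at hb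
  obtain ⟨s, hs, hsv⟩ := hb
  obtain ⟨n, hn⟩ := Ideal.mem_comap.1 hs
  have hint : IsIntegral ℤ (algebraMap (𝓞 k) k s * Algebra.trace k L y) := by
    have e : algebraMap (𝓞 k) k s * Algebra.trace k L y =
        Algebra.trace k L (algebraMap (𝓞 L) L n) := by
      rw [← hn, ← smul_eq_mul, ← map_smul, Algebra.smul_def]
      congr 1
    rw [e]
    exact Algebra.isIntegral_trace (RingOfIntegers.isIntegral_coe n)
  rw [norm_ic_le_one_iff]
  have h2 : v.valuation k (algebraMap (𝓞 k) k s * Algebra.trace k L y) ≤ 1 :=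
    v.valuation_le_one (⟨_, hint⟩ : 𝓞 k)
  have h3 : v.valuation k (algebraMap (𝓞 k) k s) = 1 := by
    rw [HeightOneSpectrum.valuation_eq_one_iff_notMem]
    exact hsv
  rw [map_mul, h3, one_mul] at h2
  exact h2

end Pool.Agent.H59.N6E
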